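import Mathlib
import Pool.Agent.H42.IdCov

/-! For every singular strong limit cardinal `μ` (under GCH, hence under `V = L`: every singular
cardinal), a poset with no antichain of size `μ` is a union of fewer than `μ` ideals. -/

open Cardinal hiding univ
open Set

universe u

theorem Pool.Agent.Results.MP_cfac02_lc.Full.result (μ : Cardinal.{u}) (h1 : μ.IsSingular)
    (h2 : μ.IsStrongLimit) (P : Type u) [PartialOrder P]
    (h : ∀ A : Set P, IsAntichain (· ≤ ·) A → #A ≠ μ) :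
    ∃ 𝓘 : Set (Set P), #𝓘 < μ ∧
      (∀ I ∈ 𝓘, I.Nonempty ∧ (∀ x ∈ I, ∀ y ≤ x, y ∈ I) ∧
        ∀ x ∈ I, ∀ y ∈ I, ∃ z ∈ I, x ≤ z ∧ y ≤ z) ∧ ⋃₀ 𝓘 = univ := by
  obtain ⟨𝓘, a, b, c⟩ := Pool.Agent.H42.IdCov.main (P := P) h1 h2 fun A hA => not_le.1 fun n => by
    obtain ⟨B, e1, e2⟩ := le_mk_iff_exists_subset.1 n
    exact h B (hA.subset e1) e2
  exact ⟨𝓘, a, fun I hI => ⟨(b I hI).Nonempty, fun x hx y hy => (b I hI).IsLowerSet hy hx,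
    (b I hI).Directed⟩, c⟩

/-- Under GCH (a consequence of `V = L`) this covers every singular cardinal. -/
example (gch : ∀ c : Cardinal.{u}, ℵ₀ ≤ c → 2 ^ c = Order.succ c) (μ : Cardinal.{u})
    (h1 : μ.IsSingular) (P : Type u) [PartialOrder P]
    (h : ∀ A : Set P, IsAntichain (· ≤ ·) A → #A ≠ μ) :
    ∃ 𝓘 : Set (Set P), #𝓘 < μ ∧
      (∀ I ∈ 𝓘, I.Nonempty ∧ (∀ x ∈ I, ∀ y ≤ x, y ∈ I) ∧
        ∀ x ∈ I, ∀ y ∈ I, ∃ z ∈ I, x ≤ z ∧ y ≤ z) ∧ ⋃₀ 𝓘 = univ := by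
  refine Pool.Agent.Results.MP_cfac02_lc.Full.result μ h1 ⟨h1.pos.ne', fun c hc => ?_⟩ P h
  rcases lt_or_ge c ℵ₀ with e | e
  · exact (power_lt_aleph0 (natCast_lt_aleph0 (n := 2)) e).trans_le h1.aleph0_le
  · rw [gch c e]
    exact h1.isSuccLimit.succ_lt hc
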